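import Pool.Agent.H43.TS.Main

/-!
# Topswaps: maximum permutations

Cards and positions are numbered from `0` (the problem file numbers them from `1`): a deck of `n` cards is a permutation `p` of
`ℕ` with `p i = i` for `i ≥ n`, `p i` is the card at the position `i`, the top is the position `0`, and the card `c` on the top
turns the upper `c + 1` cards (`step`). `s p` is the number of steps until the card `0` is on the top, `S n` the greatest value of
`s` for `n` cards, `Ct n v` the set of the decks of `n` cards with exactly `v` steps, so `Ct n (S n)` are the maximum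
permutations; `never n p` are the cards which never get to the top.
-/

set_option autoImplicit false

namespace Pool.Agent.Results.MP_e0d98f_co.LongStep

open Pool.Agent.H43.TS Equiv

theorem result :
    (∀ (n : ℕ) (p : Perm ℕ), Deck n p → (∃ t, (step^[t] p) 0 = 0) ∧ s p + (never n p).ncard ≤ S n) ∧
    (∀ n : ℕ, 2 ≤ n → ∀ p ∈ Ct n (S n), never n p = ∅ ∧ ∀ i, i < n → p i ≠ i) ∧
    (∀ n v : ℕ, 1 ≤ v → 2 * (Ct n v).ncard ≤ (Ct (n + 1) (v + 1)).ncard) ∧
    (∀ n : ℕ, 1 ≤ n → S n + 1 ≤ S (n + 1)) ∧
    ∀ n : ℕ, 2 ≤ n → (Ct (n + 1) (S (n + 1))).ncard = 1 → S n + 2 ≤ S (n + 1) := by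
  refine ⟨fun n p h => ⟨ends h, count h⟩, fun n hn p hp => ⟨?_, fun i hi => no_fix hn hp hi⟩, fun n v hv => double hv,
    fun n hn => S_succ hn, fun n hn h => unique hn h⟩
  have h1 := count hp.1
  have h2 := hp.2
  have h3 : (never n p).ncard = 0 := by omega
  exact (Set.ncard_eq_zero (never_fin n p)).1 h3

end Pool.Agent.Results.MP_e0d98f_co.LongStep
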